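import Pool.Agent.H85.TU.Targets

/-!
# The free structure is covered
-/

set_option autoImplicit false

open Set Pool.Agent.H85.TU

namespace Pool.Agent.H17.TU

theorem pf_CLO (hLNE : T_LNE) (hBIJ : T_BIJ) (hWDF : T_WDF) : T_CLO := by
  intro ι ar D Y x T A fr e hx a b
  obtain ⟨B, hBa, hBb⟩ := hLNE ι ar D x T (e a) (e b)
  obtain ⟨hinj, hsur⟩ := hBIJ ι ar D x T A B
  choose β hβ1 hβ2 using hsur
  obtain ⟨p0, hp0, ⟨s, hs⟩, ⟨t, ht⟩, hpY⟩ := hx (pos A B (e a)) (pos A B (e b))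
  have hβe : ∀ p : Pt T, Mem B p → β (pos A B p) = p := fun p hp =>
    hinj _ _ (hβ1 _) hp (hβ2 _)
  have hβinj : Function.Injective β := by
    intro m n h
    rw [← hβ2 m, ← hβ2 n, h]
  refine ⟨fun n => e.symm (β (p0 n)), ?_, ⟨s, ?_⟩, ⟨t, ?_⟩, ?_⟩
  · exact fun m n h => hp0 (hβinj (e.symm.injective h))
  · show e.symm (β (p0 s)) = a
    rw [hs, hβe _ hBa, Equiv.symm_apply_apply]
  · show e.symm (β (p0 t)) = b
    rw [ht, hβe _ hBb, Equiv.symm_apply_apply]
  · have h1 : pull (pull (Gst T A fr) e) (fun n => e.symm (β (p0 n))) = pull x p0 := by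
      funext i v
      have h2 : (e ∘ ((fun n => e.symm (β (p0 n))) ∘ v)) = fun k => β (p0 (v k)) := by
        funext k
        simp
      show Gst T A fr i (e ∘ ((fun n => e.symm (β (p0 n))) ∘ v)) = x i (p0 ∘ v)
      rw [h2, hWDF ι ar D x T A fr i _ B (fun k => hβ1 _)]
      have h3 : (fun k => pos A B (β (p0 (v k)))) = p0 ∘ v := by
        funext k
        exact hβ2 _
      rw [h3]
    rw [h1]
    exact hpY

end Pool.Agent.H17.TU
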