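import Pool.Agent.H85.TU.Targets

/-!
# The labels of the tuples of a block
-/

set_option autoImplicit false

open Set Pool.Agent.H85.TU

namespace Pool.Agent.H17.TU

section

variable {ι : Type} {ar : ι → ℕ} {D : ι → Type} {x : Str ar D ℕ}

theorem aut_div {g0 g1 : ℕ ≃ ℕ} (h0 : Aut x g0) (h1 : Aut x g1) : Aut x (g0.symm.trans g1) := by
  intro i w
  have e1 : (fun k => (g0.symm.trans g1) (w k)) = g1 ∘ (g0.symm ∘ w) := rfl
  have e2 : g0 ∘ (g0.symm ∘ w) = w := by
    funext k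
    simp
  have e3 := h0 i (g0.symm ∘ w)
  rw [e2] at e3
  calc x i ((g0.symm.trans g1) ∘ w) = x i (g1 ∘ (g0.symm ∘ w)) := rfl
    _ = x i (g0.symm ∘ w) := h1 i _
    _ = x i w := e3.symm

theorem fx_aut {g : ℕ ≃ ℕ} (hg : Aut x g) {n : ℕ} (hn : Fx x n) : g n = n := hn _ ⟨g, hg, rfl⟩

theorem pos_inr {T : Dat x} (A : ℕ → ℕ → Prop) (B : Blk T) (p : Pt T) {n : ℕ}
    (h : p.1 = Sum.inr n) : pos A B p = n := by
  unfold pos
  rw [h]

theorem fx_inr {T : Dat x} (p : Pt T) {n : ℕ} (h : p.1 = Sum.inr n) : Fx x n := by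
  have h1 := p.2
  rw [h] at h1
  exact h1

theorem labels_eq (hLNU : T_LNU) (hORB : T_ORB) (T : Dat x) (A : ℕ → ℕ → Prop) (i : ι)
    (v : Fin (ar i) → Pt T) (B0 B : Blk T) (h0 : ∀ k, Mem B0 (v k)) (h1 : ∀ k, Mem B (v k)) :
    x i (fun k => pos A B0 (v k)) = x i fun k => pos A B (v k) := by
  by_cases hne : ∃ k k' a b, (v k).1 = Sum.inl a ∧ (v k').1 = Sum.inl b ∧ a ≠ b
  · obtain ⟨k, k', a, b, ha, hb, hab⟩ := hne
    have hB : B0 = B := hLNU ι ar D x T B0 B (v k) (v k') a b ha hb hab (h0 k) (h0 k')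
      (h1 k) (h1 k')
    rw [hB]
  · by_cases hl : ∃ k0 a, (v k0).1 = Sum.inl a
    · obtain ⟨k0, a, ha⟩ := hl
      obtain ⟨⟨g0, hg0, e0⟩, -⟩ := hORB ι ar D x T A B0 (v k0) a ha (h0 k0)
      obtain ⟨⟨g1, hg1, e1⟩, -⟩ := hORB ι ar D x T A B (v k0) a ha (h1 k0)
      have hg := aut_div hg0 hg1
      have e2 : (fun k => pos A B (v k)) =
          (g0.symm.trans g1) ∘ (fun k => pos A B0 (v k)) := by
        funext k
        show pos A B (v k) = (g0.symm.trans g1) (pos A B0 (v k))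
        rcases hk : (v k).1 with q | n
        · have hq : q = a := by
            by_contra hqa
            exact hne ⟨k, k0, q, a, hk, ha, hqa⟩
          have hkk : v k = v k0 := by
            apply Subtype.ext
            rw [hk, ha, hq]
          rw [hkk, ← e0, ← e1]
          simp
        · rw [pos_inr A B (v k) hk, pos_inr A B0 (v k) hk]
          exact (fx_aut hg (fx_inr (v k) hk)).symm
      rw [e2]
      exact (hg i _).symm
    · have e3 : (fun k => pos A B0 (v k)) = fun k => pos A B (v k) := by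
        funext k
        rcases hk : (v k).1 with q | n
        · exact absurd ⟨k, q, hk⟩ hl
        · rw [pos_inr A B (v k) hk, pos_inr A B0 (v k) hk]
      rw [e3]

end

theorem pf_WDF (hLNU : T_LNU) (hORB : T_ORB) : T_WDF := by
  intro ι ar D x T A fr i v B hB
  have h : ∃ B : Blk T, ∀ k, Mem B (v k) := ⟨B, hB⟩
  unfold Gst
  rw [dif_pos h]
  exact labels_eq hLNU hORB T A i v h.choose B h.choose_spec hB

end Pool.Agent.H17.TU
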